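import Pool.Agent.Run7.h711.TG.Res
import Pool.Agent.N765.PJ.Base
import Pool.Agent.N769.PJ.Int

/-!
# Primes not dividing the discriminant are unramified

By helper711, for piece LOCW of project TG (helper784).
-/

set_option autoImplicit false
set_option linter.all false

open Polynomial IsDedekindDomain WithZero
open scoped Classical NNReal

namespace Pool.Agent.Run7.h711.TG

open Pool.Agent.N352.PJ
open Pool.Agent.N765.PJ (ev ev_f ev_L ev_surj theta_ex ev_CQ)
open Pool.Agent.N874.PP (Ov Ev Sq1)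

/-- separability modulo `Q` -/
theorem sep_of {A κ : Type} [CommRing A] [Field κ] (ρ : A →+* κ) {f : A[X]} (hm : f.Monic) {g : ℕ}
    (hd : f.natDegree = 2 * g + 1) (h : ρ (f.resultant (derivative f) (2 * g + 1) (2 * g)) ≠ 0) :
    (f.map ρ).Separable := by
  set F := f.map ρ with hF
  have hdeg : F.natDegree = 2 * g + 1 := by
    rw [hF, hm.natDegree_map, hd]
  have hder : (derivative F).natDegree ≤ 2 * g := by
    refine (natDegree_derivative_le _).trans ?_
    rw [hdeg]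
    omega
  have h1 : F.resultant (derivative F) (2 * g + 1) (2 * g) ≠ 0 := by
    rw [hF, derivative_map, resultant_map_map]
    exact h
  have h2 : F.resultant (derivative F) ≠ 0 := by
    intro h0
    apply h1
    obtain ⟨j, hj⟩ := Nat.exists_eq_add_of_le hder
    have h5 := resultant_add_right_deg F (derivative F) (2 * g + 1) (derivative F).natDegree j
      le_rfl
    rw [← hj, ← hdeg, h0, mul_zero] at h5
    rw [← hdeg, h5]
  have h3 := mt resultant_eq_zero_iff.2 h2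
  rw [not_and, not_not] at h3
  have hF0 : F ≠ 0 := (hm.map _).ne_zero
  exact h3 (Or.inl hF0)

theorem map_zero_dvd {A κ : Type} [CommRing A] [Field κ] {ρ : A →+* κ} {Q : A}
    (hρ0 : ∀ a, ρ a = 0 ↔ Q ∣ a) {p : A[X]} (h : p.map ρ = 0) : ∃ d : A[X], p = C Q * d := by
  have : C Q ∣ p := by
    rw [C_dvd_iff_dvd_coeff]
    intro i
    have h1 := congrArg (fun p => coeff p i) h
    simp only [coeff_map, coeff_zero] at h1
    exact (hρ0 _).1 h1
  exact this

variable {k K L O : Type} [Field k] [Field K] [Algebra k[X] K] [IsFractionRing k[X] K]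
  [Field L] [Algebra K L] [Algebra k[X] L] [IsScalarTower k[X] K L] [CommRing O]
  [IsDedekindDomain O] [Algebra O L] [IsFractionRing O L] [Algebra k[X] O]
  [IsScalarTower k[X] O L] [IsIntegralClosure O k[X] L] {g : ℕ} {f : k[X][X]} {θ : L}

/-- The residue class of `θ` at a prime over `Q`. -/
theorem res_label (hG : IsGen g K f θ) {t : O} (ht : algebraMap O L t = θ) {Q : k[X]}
    {κ : Type} [Field κ] {ρ : k[X] →+* κ} (hρ : Function.Surjective ρ)
    (hρ0 : ∀ a, ρ a = 0 ↔ Q ∣ a) {𝔓 : HeightOneSpectrum O} (hO : Ov Q 𝔓) :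
    ∃ π : κ[X], π.Monic ∧ Irreducible π ∧ ∀ p : k[X][X], ev t p ∈ 𝔓.asIdeal ↔ π ∣ p.map ρ := by
  have hmax : 𝔓.asIdeal.IsMaximal := 𝔓.isMaximal
  letI f2 : Field (O ⧸ 𝔓.asIdeal) := Ideal.Quotient.field _
  set φ := Ideal.Quotient.mk 𝔓.asIdeal with hφ
  obtain ⟨ι, hι⟩ : ∃ ι : κ →+* O ⧸ 𝔓.asIdeal, ∀ a, ι (ρ a) = φ (algebraMap k[X] O a) := by
    have hk : RingHom.ker ρ ≤ RingHom.ker (φ.comp (algebraMap k[X] O)) := by
      intro a ha
      rw [RingHom.mem_ker] at ha ⊢
      rw [RingHom.comp_apply, hφ, Ideal.Quotient.eq_zero_iff_mem]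
      obtain ⟨b, rfl⟩ := (hρ0 _).1 ha
      rw [map_mul]
      exact Ideal.mul_mem_right _ _ hO
    refine ⟨ρ.liftOfSurjective hρ ⟨_, hk⟩, fun a => ?_⟩
    rw [RingHom.liftOfRightInverse_comp_apply]
    rfl
  have hι2 : ι.comp ρ = φ.comp (algebraMap k[X] O) := RingHom.ext fun a => hι a
  have hev : ∀ p : k[X][X], eval₂ ι (φ t) (p.map ρ) = φ (ev t p) := by
    intro p
    rw [eval₂_map, hι2, ← hom_eval₂]
    rfl
  obtain ⟨π, h1, h2, h3⟩ := exists_label ι (z := φ t) (F := f.map ρ) (hG.mon.map ρ) (by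
    rw [hev, ev_f hG ht, map_zero])
  refine ⟨π, h1, h2, fun p => ?_⟩
  rw [← h3, hev, hφ, Ideal.Quotient.eq_zero_iff_mem]

theorem valQ (hI : S_INT) (hG : IsGen g K f θ) (hsq : Squarefree (dsc g f)) {Q : k[X]}
    {κ : Type} [Field κ] {ρ : k[X] →+* κ} (hρ : Function.Surjective ρ)
    (hρ0 : ∀ a, ρ a = 0 ↔ Q ∣ a) (hsep : (f.map ρ).Separable) {𝔓 : HeightOneSpectrum O}
    (hO : Ov Q 𝔓) : 𝔓.valuation L (algebraMap k[X] L Q) = exp (-1 : ℤ) := by
  obtain ⟨t, ht⟩ := theta_ex O hG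
  obtain ⟨π, hπ1, hπ2, hπ⟩ := res_label hG ht hρ hρ0 hO
  obtain ⟨y, hy⟩ := 𝔓.intValuation_exists_uniformizer
  obtain ⟨p, hp⟩ := ev_surj (K := K) hI hG hsq ht y
  have hy1 : y ∈ 𝔓.asIdeal := by
    have := (𝔓.intValuation_le_pow_iff_mem y 1).1 (by rw [hy]; rfl)
    simpa using this
  have hd : π ∣ f.map ρ := by
    rw [← hπ, ev_f hG ht]
    exact zero_mem _
  obtain ⟨b, hb⟩ := hd
  obtain ⟨π', hπ'⟩ := Polynomial.map_surjective ρ hρ π
  obtain ⟨b', hb'⟩ := Polynomial.map_surjective ρ hρ b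
  have hbn : ev t b' ∉ 𝔓.asIdeal := by
    rw [hπ, hb']
    rintro ⟨c, rfl⟩
    have h1 : Squarefree (f.map ρ) := hsep.squarefree
    refine hπ2.not_isUnit (h1 π ⟨c, ?_⟩)
    rw [hb]
    ring
  obtain ⟨c, hc⟩ : π ∣ p.map ρ := by
    rw [← hπ, hp]
    exact hy1
  obtain ⟨c', hc'⟩ := Polynomial.map_surjective ρ hρ c
  obtain ⟨e, he⟩ := map_zero_dvd hρ0 (p := f - π' * b') (by
    rw [Polynomial.map_sub, Polynomial.map_mul, hπ', hb', hb, sub_self])
  obtain ⟨d, hd⟩ := map_zero_dvd hρ0 (p := p - π' * c') (by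
    rw [Polynomial.map_sub, Polynomial.map_mul, hπ', hc', hc, sub_self])
  have e1 : y * ev t b' = algebraMap k[X] O Q * ev t (d * b' - e * c') := by
    rw [← hp, ← ev_CQ, ← map_mul]
    have h2 : p * b' = f * c' + C Q * (d * b' - e * c') := by
      linear_combination b' * hd - c' * he
    rw [h2, map_add, map_mul, ev_f hG ht, zero_mul, zero_add]
  have e2 := congrArg 𝔓.intValuation e1
  rw [map_mul, map_mul, hy, (𝔓.intValuation_eq_one_iff_mem_primeCompl _).2 hbn, mul_one] at e2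
  have e3 : 𝔓.valuation L (algebraMap k[X] L Q) = 𝔓.intValuation (algebraMap k[X] O Q) := by
    rw [IsScalarTower.algebraMap_apply k[X] O L, HeightOneSpectrum.valuation_of_algebraMap]
  rw [e3]
  apply le_antisymm
  · have := (𝔓.intValuation_le_pow_iff_mem (algebraMap k[X] O Q) 1).2 (by rw [pow_one]; exact hO)
    exact this
  · rw [e2]
    exact (mul_le_mul_right (𝔓.intValuation_le_one _) _).trans (by rw [mul_one])

end Pool.Agent.Run7.h711.TG
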