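import Pool.Agent.Run7.h711.TG.Res

/-!
# The group law of the local classes

By helper711, for piece LOCW of project TG (helper784).
-/

set_option autoImplicit false
set_option linter.all false

open Polynomial
open scoped symmDiff

namespace Pool.Agent.Run7.h711.TG

section grp

variable {E W B : Type} [DecidableEq B] [Field E] [Field W] (ι : E →+* W) {n : ℕ} (lab : Fin n → B)
  (zz : Fin n → W) (i₀ : Fin n) (T : Finset B)

/-- The set of indices with label in `A`. -/
noncomputable def Ix (A : Finset B) : Finset (Fin n) := Finset.univ.filter fun i => lab i ∈ A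

theorem mem_Ix {A : Finset B} {i : Fin n} : i ∈ Ix lab A ↔ lab i ∈ A := by
  simp [Ix]

theorem Ix_symmDiff (A A' : Finset B) : Ix lab (A ∆ A') = Ix lab A ∆ Ix lab A' := by
  ext i
  simp only [mem_Ix, Finset.mem_symmDiff]

theorem Ix_inter (A A' : Finset B) : Ix lab (A ∩ A') = Ix lab A ∩ Ix lab A' := by
  ext i
  simp only [mem_Ix, Finset.mem_inter]

theorem prod_symmDiff (S S' : Finset (Fin n)) :
    (∏ i ∈ S, zz i) * (∏ i ∈ S', zz i) = (∏ i ∈ S ∆ S', zz i) * (∏ i ∈ S ∩ S', zz i) ^ 2 := by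
  have h1 : (∏ i ∈ S ∪ S', zz i) = (∏ i ∈ S ∆ S', zz i) * (∏ i ∈ S ∩ S', zz i) := by
    rw [← Finset.prod_union]
    · congr 1
      ext i
      simp only [Finset.mem_union, Finset.mem_symmDiff, Finset.mem_inter]
      tauto
    · rw [Finset.disjoint_left]
      intro i hi
      simp only [Finset.mem_symmDiff, Finset.mem_inter] at hi ⊢
      tauto
  rw [← Finset.prod_union_inter, h1]
  ring

variable {ee : Finset B → E} (hee : ∀ A, ι (ee A) = ∏ i ∈ Ix lab A, zz i)

include hee in
theorem ee_mul (A A' : Finset B) : ee A * ee A' = ee (A ∆ A') * ee (A ∩ A') ^ 2 := by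
  apply ι.injective
  rw [map_mul, map_mul, map_pow, hee, hee, hee, hee, Ix_symmDiff, Ix_inter, prod_symmDiff]

include hee in
theorem ee_congr {A A' : Finset B} (h : ∀ i, lab i ∈ A ↔ lab i ∈ A') : ee A = ee A' := by
  apply ι.injective
  rw [hee, hee]
  congr 1
  ext i
  rw [mem_Ix, mem_Ix, h]

/-- The class. -/
noncomputable def Wc (ee : Finset B → E) (D : E) (A : Finset B) : E :=
  if lab i₀ ∈ A then -D * ee (T \ A) else ee A

variable {D : E}

include hee in
theorem Wc_ne (hlT : ∀ i, lab i ∈ T) (hD : D ≠ 0) (hz : ∀ i, i ≠ i₀ → zz i ≠ 0) (A : Finset B) :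
    Wc lab i₀ T ee D A ≠ 0 := by
  have key : ∀ A : Finset B, lab i₀ ∉ A → ee A ≠ 0 := by
    intro A hA h0
    have h1 := hee A
    rw [h0, map_zero] at h1
    obtain ⟨i, hi, hi0⟩ := Finset.prod_eq_zero_iff.1 h1.symm
    rw [mem_Ix] at hi
    exact hz i (fun h => hA (h ▸ hi)) hi0
  unfold Wc
  split_ifs with h
  · refine mul_ne_zero (neg_ne_zero.2 hD) (key _ ?_)
    simp [h]
  · exact key _ h

include hee in
theorem Wc_mul (hlT : ∀ i, lab i ∈ T) {A A' : Finset B} :
    IsSquare (Wc lab i₀ T ee D A * Wc lab i₀ T ee D A' * Wc lab i₀ T ee D (A ∆ A')) := by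
  unfold Wc
  by_cases h1 : lab i₀ ∈ A <;> by_cases h2 : lab i₀ ∈ A'
  · have h3 : lab i₀ ∉ A ∆ A' := by simp [Finset.mem_symmDiff, h1, h2]
    rw [if_pos h1, if_pos h2, if_neg h3]
    have e := ee_mul ι lab zz hee (T \ A) (T \ A')
    have e2 : ee ((T \ A) ∆ (T \ A')) = ee (A ∆ A') := by
      refine ee_congr ι lab zz hee fun i => ?_
      simp only [Finset.mem_symmDiff, Finset.mem_sdiff, hlT i, true_and]
      tauto
    rw [e2] at e
    refine ⟨D * ee (A ∆ A') * ee ((T \ A) ∩ (T \ A')), ?_⟩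
    linear_combination D ^ 2 * ee (A ∆ A') * e
  · have h3 : lab i₀ ∈ A ∆ A' := by simp [Finset.mem_symmDiff, h1, h2]
    rw [if_pos h1, if_neg h2, if_pos h3]
    have e := ee_mul ι lab zz hee (T \ A) A'
    have e2 : ee ((T \ A) ∆ A') = ee (T \ (A ∆ A')) := by
      refine ee_congr ι lab zz hee fun i => ?_
      simp only [Finset.mem_symmDiff, Finset.mem_sdiff, hlT i, true_and]
      tauto
    rw [e2] at e
    refine ⟨D * ee (T \ (A ∆ A')) * ee ((T \ A) ∩ A'), ?_⟩
    linear_combination D ^ 2 * ee (T \ (A ∆ A')) * e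
  · have h3 : lab i₀ ∈ A ∆ A' := by simp [Finset.mem_symmDiff, h1, h2]
    rw [if_neg h1, if_pos h2, if_pos h3]
    have e := ee_mul ι lab zz hee A (T \ A')
    have e2 : ee (A ∆ (T \ A')) = ee (T \ (A ∆ A')) := by
      refine ee_congr ι lab zz hee fun i => ?_
      simp only [Finset.mem_symmDiff, Finset.mem_sdiff, hlT i, true_and]
      tauto
    rw [e2] at e
    refine ⟨D * ee (T \ (A ∆ A')) * ee (A ∩ (T \ A')), ?_⟩
    linear_combination D ^ 2 * ee (T \ (A ∆ A')) * e
  · have h3 : lab i₀ ∉ A ∆ A' := by simp [Finset.mem_symmDiff, h1, h2]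
    rw [if_neg h1, if_neg h2, if_neg h3]
    have e := ee_mul ι lab zz hee A A'
    refine ⟨ee (A ∆ A') * ee (A ∩ A'), ?_⟩
    linear_combination ee (A ∆ A') * e

/-- The total set. -/
noncomputable def tot {P : Type} (s : P → Finset B) (l : List P) : Finset B :=
  l.foldr (fun p t => s p ∆ t) ∅

theorem sq_cancel {x y : E} (hy : y ≠ 0) (h : IsSquare (x * y ^ 2)) : IsSquare x := by
  obtain ⟨r, hr⟩ := h
  refine ⟨r / y, ?_⟩
  field_simp
  linear_combination hr

include hee in
theorem list_sq {P : Type} (s : P → Finset B) (val : P → E) (hlT : ∀ i, lab i ∈ T) (hD : D ≠ 0)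
    (hz : ∀ i, i ≠ i₀ → zz i ≠ 0) (l : List P)
    (h : ∀ p ∈ l, IsSquare (val p * Wc lab i₀ T ee D (s p))) :
    IsSquare ((l.map val).prod * Wc lab i₀ T ee D (tot s l)) := by
  induction l with
  | nil =>
    have e : ee ∅ = 1 := by
      apply ι.injective
      rw [hee, map_one]
      simp [Ix]
    simp [tot, Wc, e]
  | cons p l ih =>
    have h1 := h p List.mem_cons_self
    have h2 := ih fun q hq => h q (List.mem_cons_of_mem _ hq)
    have h3 := Wc_mul ι lab zz i₀ T hee (D := D) hlT (A := s p) (A' := tot s l)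
    have e : tot s (p :: l) = s p ∆ tot s l := rfl
    rw [List.map_cons, List.prod_cons, e]
    refine sq_cancel (y := Wc lab i₀ T ee D (s p) * Wc lab i₀ T ee D (tot s l))
      (mul_ne_zero (Wc_ne ι lab zz i₀ T hee hlT hD hz _) (Wc_ne ι lab zz i₀ T hee hlT hD hz _)) ?_
    have h4 := (h1.mul h2).mul h3
    have e5 : val p * (l.map val).prod * Wc lab i₀ T ee D (s p ∆ tot s l) *
        (Wc lab i₀ T ee D (s p) * Wc lab i₀ T ee D (tot s l)) ^ 2 =
        val p * Wc lab i₀ T ee D (s p) * ((l.map val).prod * Wc lab i₀ T ee D (tot s l)) *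
        (Wc lab i₀ T ee D (s p) * Wc lab i₀ T ee D (tot s l) *
          Wc lab i₀ T ee D (s p ∆ tot s l)) := by ring
    rw [e5]
    exact h4

end grp

end Pool.Agent.Run7.h711.TG
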