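import Pool.Agent.Run7.h711.TG.Res

/-!
# The roots of `f` over a complete field, with labels

By helper711, for piece LOCW of project TG (helper784).
-/

set_option autoImplicit false
set_option linter.all false

open Polynomial IsDedekindDomain WithZero
open scoped Classical NNReal

namespace Pool.Agent.Run7.h711.TG

open Pool.Agent.N352.PJ (CV ac)

/-- residue class zero -/
theorem res_zero {W : Type} [Field W] (w : Valuation W NNReal) (x : w.valuationSubring) :
    IsLocalRing.residue w.valuationSubring x = 0 ↔ w (x : W) < 1 := by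
  rw [IsLocalRing.residue_eq_zero_iff, IsLocalRing.mem_maximalIdeal, mem_nonunits_iff,
    (Valuation.valuationSubring.integers w).isUnit_iff_valuation_eq_one]
  have h1 : w (x : W) ≤ 1 := x.2
  constructor
  · intro h
    exact lt_of_le_of_ne h1 h
  · intro h h2
    exact absurd (h2 : w (x : W) = 1) h.ne

theorem elevel {A κ E : Type} [CommRing A] [Field κ] [Field E]
    {w : Valuation (AlgebraicClosure E) NNReal} {c : NNReal} (hc : CV E w c)
    (ρ : A →+* κ) (hρ : Function.Surjective ρ) (φ : A →+* E) (hφ : ∀ a, w (ac (φ a)) ≤ 1)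
    (hφ0 : ∀ a, ρ a = 0 → w (ac (φ a)) < 1) {f : A[X]} (hf : f.Monic) {n : ℕ}
    (hd : f.natDegree = n) (hsep : (f.map ρ).Separable) {T : Finset κ[X]}
    (hT : ∀ π ∈ T, π.Monic ∧ Irreducible π) (hprod : ∏ π ∈ T, π = f.map ρ) :
    ∃ (θ : Fin n → AlgebraicClosure E) (lab : Fin n → κ[X]), (∀ i, lab i ∈ T) ∧
      (f.map φ).map (algebraMap E (AlgebraicClosure E)) = ∏ i, (X - C (θ i)) ∧
      (∀ i, w (θ i) ≤ 1) ∧ (∀ i j, i ≠ j → w (θ i - θ j) = 1) ∧
      (∀ i (p : A[X]), w (eval₂ ((algebraMap E (AlgebraicClosure E)).comp φ) (θ i) p) < 1 ↔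
        lab i ∣ p.map ρ) ∧
      (∀ B ⊆ T, (Finset.univ.filter fun i => lab i ∈ B).card = (∏ π ∈ B, π).natDegree) ∧
      (∀ B ⊆ T, ∀ a : A[X], a.map ρ = ∏ π ∈ B, π → ∀ i,
        w (eval₂ ((algebraMap E (AlgebraicClosure E)).comp φ) (θ i) a -
          ∏ j ∈ Finset.univ.filter fun j => lab j ∈ B, (θ i - θ j)) < 1) ∧
      (∀ (B : Finset κ[X]) (t : E), ∃ e : E, ac e =
          ∏ j ∈ Finset.univ.filter fun j => lab j ∈ B, (ac t - θ j)) := by
  set φΩ : A →+* AlgebraicClosure E := (algebraMap E (AlgebraicClosure E)).comp φ with hφΩ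
  -- the map to the valuation ring
  obtain ⟨φ', hφ'⟩ : ∃ φ' : A →+* w.valuationSubring, ∀ a, (φ' a : AlgebraicClosure E) = φΩ a :=
    ⟨φΩ.codRestrict w.valuationSubring fun a => hφ a, fun a => rfl⟩
  have hφ'2 : (algebraMap w.valuationSubring (AlgebraicClosure E)).comp φ' = φΩ :=
    RingHom.ext fun a => hφ' a
  set res := IsLocalRing.residue w.valuationSubring with hres
  have hres0 : ∀ x : w.valuationSubring, res x = 0 ↔ w (x : AlgebraicClosure E) < 1 := fun x =>
    res_zero w x
  obtain ⟨ι, hι⟩ : ∃ ι : κ →+* IsLocalRing.ResidueField w.valuationSubring,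
      ∀ a, ι (ρ a) = res (φ' a) := by
    have hk : RingHom.ker ρ ≤ RingHom.ker (res.comp φ') := by
      intro a ha
      rw [RingHom.mem_ker] at ha ⊢
      rw [RingHom.comp_apply, hres0, hφ']
      exact hφ0 a ha
    refine ⟨ρ.liftOfSurjective hρ ⟨_, hk⟩, fun a => ?_⟩
    rw [RingHom.liftOfRightInverse_comp_apply]
    rfl
  have hι2 : ι.comp ρ = res.comp φ' := RingHom.ext fun a => hι a
  -- the roots
  have hfm : (f.map φΩ).Monic := hf.map _
  have hfd : (f.map φΩ).natDegree = n := by rw [hf.natDegree_map, hd]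
  obtain ⟨θ, hθ⟩ := exists_roots hfm hfd
  have hroot : ∀ i, eval₂ φΩ (θ i) f = 0 := by
    intro i
    rw [← eval_map, hθ, eval_prod]
    exact Finset.prod_eq_zero (Finset.mem_univ i) (by simp)
  have hθ1 : ∀ i, w (θ i) ≤ 1 := by
    intro i
    refine (Valuation.valuationSubring.integers w).mem_of_integral (x := θ i)
      ⟨f.map φ', hf.map _, ?_⟩
    rw [eval₂_map, hφ'2, hroot]
  obtain ⟨θ', hθ'⟩ : ∃ θ' : Fin n → w.valuationSubring, ∀ i, (θ' i : AlgebraicClosure E) = θ i :=
    ⟨fun i => ⟨θ i, hθ1 i⟩, fun i => rfl⟩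
  have hev : ∀ i (p : A[X]), ((eval₂ φ' (θ' i) p : w.valuationSubring) : AlgebraicClosure E) =
      eval₂ φΩ (θ i) p := by
    intro i p
    rw [← hφ'2, ← hθ']
    exact hom_eval₂ p φ' (algebraMap w.valuationSubring (AlgebraicClosure E)) (θ' i)
  have hfO : f.map φ' = ∏ i, (X - C (θ' i)) := by
    apply Polynomial.map_injective (algebraMap w.valuationSubring (AlgebraicClosure E))
      Subtype.val_injective
    rw [Polynomial.map_map, hφ'2, hθ, Polynomial.map_prod]
    refine Finset.prod_congr rfl fun i _ => ?_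
    rw [Polynomial.map_sub, map_X, map_C]
    congr 2
    exact (hθ' i).symm
  set z : Fin n → IsLocalRing.ResidueField w.valuationSubring := fun i => res (θ' i) with hz
  have hfz : (∏ π ∈ T, π).map ι = ∏ i, (X - C (z i)) := by
    rw [hprod, Polynomial.map_map, hι2, ← Polynomial.map_map, hfO, Polynomial.map_prod]
    refine Finset.prod_congr rfl fun i _ => ?_
    rw [Polynomial.map_sub, map_X, map_C]
  have hzi : Function.Injective z := by
    have h1 : ((f.map ρ).map ι).Separable := hsep.map
    rw [← hprod, hfz] at h1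
    exact separable_prod_X_sub_C_iff.1 h1
  have hez : ∀ i (p : A[X]), eval₂ ι (z i) (p.map ρ) = res (eval₂ φ' (θ' i) p) := by
    intro i p
    rw [eval₂_map, hι2, ← hom_eval₂]
  have hl : ∀ i, ∃ π : κ[X], π.Monic ∧ Irreducible π ∧
      ∀ p : κ[X], eval₂ ι (z i) p = 0 ↔ π ∣ p := by
    intro i
    refine exists_label ι (hf.map ρ) ?_
    rw [hez, hres0, hev, hroot, map_zero]
    exact zero_lt_one
  choose lab hl1 hl2 hl3 using hl
  have hlT : ∀ i, lab i ∈ T := by
    intro i
    have h1 : lab i ∣ ∏ π ∈ T, π := by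
      rw [← hl3, hprod, hez, hres0, hev, hroot, map_zero]
      exact zero_lt_one
    obtain ⟨a, ha, hd⟩ := ((hl2 i).prime.dvd_finset_prod_iff _).1 h1
    rw [eq_of_dvd (hl1 i) (hl2 i) (hT a ha).1 (hT a ha).2 hd]
    exact ha
  have hlab : ∀ i (p : A[X]), w (eval₂ φΩ (θ i) p) < 1 ↔ lab i ∣ p.map ρ := by
    intro i p
    rw [← hl3, hez, hres0, hev]
  have hdist : ∀ i j, i ≠ j → w (θ i - θ j) = 1 := by
    intro i j hij
    have h1 : ¬ w (θ i - θ j) < 1 := by
      have h2 := hres0 (θ' i - θ' j)
      have h3 : ((θ' i - θ' j : w.valuationSubring) : AlgebraicClosure E) = θ i - θ j := by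
        rw [← hθ', ← hθ']
        rfl
      rw [h3] at h2
      rw [← h2, map_sub, sub_eq_zero]
      exact fun h => hij (hzi h)
    exact le_antisymm (w.map_sub_le (hθ1 i) (hθ1 j)) (not_lt.1 h1)
  have hθi : Function.Injective θ := by
    intro i j hij
    by_contra hne
    have h1 := hdist i j hne
    rw [hij, sub_self, map_zero] at h1
    exact zero_ne_one h1
  refine ⟨θ, lab, hlT, ?_, hθ1, hdist, hlab, ?_, ?_, ?_⟩
  · rw [Polynomial.map_map, ← hφΩ, hθ]
  · intro B hB
    exact card_roots ι hzi hT hfz hlT hl3 hB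
  · intro B hB a ha i
    have h1 := fac_roots ι hzi hT hfz hlT hl3 hB
    rw [← ha] at h1
    have h2 := congrArg (eval (z i)) h1
    rw [eval_map, hez, eval_prod] at h2
    have h3 : res (eval₂ φ' (θ' i) a - ∏ j ∈ Finset.univ.filter fun j => lab j ∈ B,
        (θ' i - θ' j)) = 0 := by
      rw [map_sub, h2, map_prod, sub_eq_zero]
      refine Finset.prod_congr rfl fun j _ => ?_
      rw [eval_sub, eval_X, eval_C, map_sub]
    rw [hres0] at h3
    have h4 : ((eval₂ φ' (θ' i) a - ∏ j ∈ Finset.univ.filter fun j => lab j ∈ B,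
        (θ' i - θ' j) : w.valuationSubring) : AlgebraicClosure E) = eval₂ φΩ (θ i) a -
          ∏ j ∈ Finset.univ.filter fun j => lab j ∈ B, (θ i - θ j) := by
      rw [← hev]
      push_cast
      congr 1
      refine Finset.prod_congr rfl fun j _ => ?_
      rw [hθ', hθ']
    rw [← h4]
    exact h3
  · intro B t
    -- separability
    have hfs : (f.map φ).Separable := by
      rw [← separable_map (algebraMap E (AlgebraicClosure E)), Polynomial.map_map, ← hφΩ, hθ]
      exact separable_prod_X_sub_C_iff.2 hθi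
    have hsi : ∀ i, IsSeparable E (θ i) := by
      intro i
      have h1 : aeval (θ i) (f.map φ) = 0 := by
        rw [aeval_def, eval₂_map]
        exact hroot i
      exact hfs.of_dvd (minpoly.dvd E (θ i) h1)
    refine fix_mem ?_ ?_
    · rw [← mem_separableClosure_iff]
      exact prod_mem fun j _ => sub_mem (IntermediateField.algebraMap_mem _ _)
        (mem_separableClosure_iff.2 (hsi j))
    · intro σ
      have hσev : ∀ (x : AlgebraicClosure E) (p : A[X]), σ (eval₂ φΩ x p) = eval₂ φΩ (σ x) p := by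
        intro x p
        have h1 := hom_eval₂ p φΩ (σ : AlgebraicClosure E →+* AlgebraicClosure E) x
        have h2 : (σ : AlgebraicClosure E →+* AlgebraicClosure E).comp φΩ = φΩ := by
          refine RingHom.ext fun a => ?_
          exact σ.commutes _
        rw [h2] at h1
        exact h1
      have hτ : ∀ i, ∃ i', θ i' = σ (θ i) := by
        intro i
        have h1 : eval₂ φΩ (σ (θ i)) f = 0 := by
          rw [← hσev, hroot, map_zero]
        rw [← eval_map, hθ, eval_prod, Finset.prod_eq_zero_iff] at h1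
        obtain ⟨i', -, hi'⟩ := h1
        rw [eval_sub, eval_X, eval_C, sub_eq_zero] at hi'
        exact ⟨i', hi'.symm⟩
      choose τ hτ using hτ
      have hτi : Function.Injective τ := by
        intro i j hij
        have h1 := hτ i
        rw [hij, hτ j] at h1
        exact hθi (σ.injective h1.symm)
      have hτb : Function.Bijective τ := Finite.injective_iff_bijective.1 hτi
      have hτl : ∀ i, lab (τ i) = lab i := by
        intro i
        obtain ⟨p, hp⟩ := Polynomial.map_surjective ρ hρ (lab i)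
        refine eq_of_dvd (hl1 _) (hl2 _) (hl1 _) (hl2 _) ?_
        rw [← hp, ← hlab, hτ, ← hσev, hc.conj, hlab, hp]
      rw [map_prod]
      refine Finset.prod_equiv (Equiv.ofBijective τ hτb) ?_ ?_
      · intro i
        simp [hτl]
      · intro i _
        rw [map_sub, Equiv.ofBijective_apply, hτ]
        congr 1
        exact σ.commutes _

end Pool.Agent.Run7.h711.TG
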