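import Pool.Agent.Run7.h711.TG.Near
import Pool.Agent.Run7.h711.TG.Lev
import Pool.Agent.Run7.h711.TG.Unr
import Pool.Agent.Run7.h711.TG.Grp
import Pool.Agent.N704.PJ.Loc2
import Pool.Agent.N787.PJ.Ext
import Pool.Agent.N787.PJ.Cpl

/-!
# Piece LOCW of project TG (helper784)

By helper711; after `N704/PJ/Loc2.lean` (helper704). The local condition at a prime `Q` of the twist
implies the explicit one.
-/

set_option autoImplicit false
set_option linter.all false

open Polynomial IsDedekindDomain WithZero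
open scoped Classical NNReal symmDiff

namespace Pool.Agent.Run7.h711.TG

open Pool.Agent.N874.PP (Ov Ev Sq1 U0)
open Pool.Agent.N352.PJ
open Pool.Agent.N704.PJ (WV wv_le wv_lt wv_eq emb emb_comp vemb eval_emb val_two scale_root eq_prod)
open Pool.Agent.N704.PP (vx sq1_of valO_le_one valO_eq_one resid)
open Run7.h784.TG (nearA P_E3 P_LOCW LocW Fm)

theorem sq1_of_isSquare {O L : Type} [CommRing O] [IsDedekindDomain O] [Field L] [Algebra O L]
    [IsFractionRing O L] {𝔓 : HeightOneSpectrum O} {x : L} (hx : x ≠ 0)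
    (h : IsSquare (algebraMap L (𝔓.adicCompletion L) x)) : Sq1 𝔓 x := by
  obtain ⟨s, hs⟩ := h
  refine sq1_of 𝔓 x s ?_
  rw [hs, pow_two, sub_self, map_zero, ← hs]
  refine zero_lt_iff.2 ((Valuation.ne_zero_iff _).2 ?_)
  rw [Ne, map_eq_zero]
  exact hx

/-- Integral polynomials over the completion are congruent to polynomials over `k[X]`. -/
theorem exists_lift {k K : Type} [Field k] [Field K] [Algebra k[X] K] [IsFractionRing k[X] K]
    {v : HeightOneSpectrum k[X]} (p : (v.adicCompletion K)[X])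
    (hp : ∀ i, Valued.v (Γ₀ := WithZero (Multiplicative ℤ)) (p.coeff i) ≤ 1) :
    ∃ p₀ : k[X][X], ∀ i, Valued.v (Γ₀ := WithZero (Multiplicative ℤ))
      (p.coeff i - algebraMap K (v.adicCompletion K) (algebraMap k[X] K (p₀.coeff i))) < 1 := by
  choose q hq using fun i => resid (p.coeff i) (hp i)
  refine ⟨∑ i ∈ Finset.range (p.natDegree + 1), monomial i (q i), fun i => ?_⟩
  by_cases hi : i < p.natDegree + 1
  · have e : (∑ i ∈ Finset.range (p.natDegree + 1), monomial i (q i)).coeff i = q i := by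
      rw [finset_sum_coeff]
      simp only [coeff_monomial]
      rw [Finset.sum_ite_eq' (Finset.range (p.natDegree + 1)) i q, if_pos (Finset.mem_range.2 hi)]
    rw [e]
    exact hq i
  · have e : (∑ i ∈ Finset.range (p.natDegree + 1), monomial i (q i)).coeff i = 0 := by
      rw [finset_sum_coeff]
      refine Finset.sum_eq_zero fun n hn => ?_
      rw [coeff_monomial, if_neg]
      intro h
      rw [Finset.mem_range] at hn
      omega
    rw [e, coeff_eq_zero_of_natDegree_lt (by omega : p.natDegree < i), map_zero, map_zero,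
      sub_zero, map_zero]
    exact zero_lt_one

/-- Elements near `y`. -/
theorem near_sq {E : Type} [Field E] {w : Valuation (AlgebraicClosure E) NNReal} {c : NNReal}
    (hc : CV E w c) {x y β : E} (hy : w (ac y) = 1) (h : w (ac x - ac y) < 1)
    (hs : IsSquare (β * y)) : IsSquare (β * x) := by
  have hy0 : y ≠ 0 := by
    rintro rfl
    rw [ac, map_zero, map_zero] at hy
    exact zero_ne_one hy
  have h1 : IsSquare (x / y) := by
    refine hc.sq _ ?_
    have hy0' : ac y ≠ 0 := by rw [ac, Ne, map_eq_zero]; exact hy0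
    have e : ac (x / y) - 1 = (ac x - ac y) / ac y := by
      rw [ac, map_div₀]
      field_simp
    rw [e, map_div₀, hy, div_one]
    exact h
  obtain ⟨r, hr⟩ := h1
  obtain ⟨s, hs⟩ := hs
  refine ⟨r * s, ?_⟩
  have e : x = r * r * y := by
    rw [← hr]
    field_simp
  rw [e]
  linear_combination r ^ 2 * hs

theorem sum_even {B : Type} [DecidableEq B] (d : B → ℕ) {A A' : Finset B} (h : Even (∑ x ∈ A, d x))
    (h' : Even (∑ x ∈ A', d x)) : Even (∑ x ∈ A ∆ A', d x) := by
  have h1 : (∑ x ∈ A ∪ A', d x) = (∑ x ∈ A ∆ A', d x) + (∑ x ∈ A ∩ A', d x) := by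
    rw [← Finset.sum_union]
    · congr 1
      ext i
      simp only [Finset.mem_union, Finset.mem_symmDiff, Finset.mem_inter]
      tauto
    · rw [Finset.disjoint_left]
      intro i hi
      simp only [Finset.mem_symmDiff, Finset.mem_inter] at hi ⊢
      tauto
  have h2 := Finset.sum_union_inter (s₁ := A) (s₂ := A') (f := d)
  obtain ⟨a, ha⟩ := h
  obtain ⟨b, hb⟩ := h'
  rw [Nat.even_iff]
  omega

theorem tot_even {B P : Type} [DecidableEq B] (d : B → ℕ) (s : P → Finset B) (l : List P)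
    (h : ∀ p ∈ l, Even (∑ x ∈ s p, d x)) : Even (∑ x ∈ tot s l, d x) := by
  induction l with
  | nil => simp [tot]
  | cons p l ih =>
    have e : tot s (p :: l) = s p ∆ tot s l := rfl
    rw [e]
    exact sum_even d (h p List.mem_cons_self) (ih fun q hq => h q (List.mem_cons_of_mem _ hq))

theorem tot_sub {B P : Type} [DecidableEq B] {T : Finset B} (s : P → Finset B) (l : List P)
    (h : ∀ p ∈ l, s p ⊆ T) : tot s l ⊆ T := by
  induction l with
  | nil => simp [tot]
  | cons p l ih =>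
    have e : tot s (p :: l) = s p ∆ tot s l := rfl
    rw [e]
    intro x hx
    rw [Finset.mem_symmDiff] at hx
    rcases hx with ⟨hx, -⟩ | ⟨hx, -⟩
    · exact h p List.mem_cons_self hx
    · exact ih (fun q hq => h q (List.mem_cons_of_mem _ hq)) hx

theorem locw_of (h1 : S_INT) (h3 : P_E3) (h5 : S_EXT) (h6 : S_CPL) : P_LOCW := by
  intro k K L O _ _ _ _ _ _ _ _ _ _ _ _ _ _ _ _ g N r f θ hF hG Q v hQm hQi hQn hv D' h hD' hne hl
  -- the residue field of `Q`
  haveI hmax : (Ideal.span {Q}).IsMaximal := PrincipalIdealRing.isMaximal_of_irreducible hQi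
  letI f1 : Field (k[X] ⧸ Ideal.span {Q}) := Ideal.Quotient.field _
  obtain ⟨ρ, hρ, hρ0⟩ : ∃ ρ : k[X] →+* k[X] ⧸ Ideal.span {Q}, Function.Surjective ρ ∧
      ∀ a, ρ a = 0 ↔ Q ∣ a := by
    refine ⟨Ideal.Quotient.mk _, Ideal.Quotient.mk_surjective, fun a => ?_⟩
    rw [Ideal.Quotient.eq_zero_iff_mem, Ideal.mem_span_singleton]
  have hsep : (f.map ρ).Separable := by
    refine sep_of ρ hG.mon hG.deg ?_
    rw [Ne, hρ0]
    exact hQn
  obtain ⟨T, hT, hprod⟩ := fac_prod (hG.mon.map ρ) hsep.squarefree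
  have hTdeg : ∑ π ∈ T, π.natDegree = 2 * g + 1 := by
    rw [← natDegree_prod_of_monic _ _ fun π hπ => (hT π hπ).1, hprod, hG.mon.natDegree_map, hG.deg]
  obtain ⟨l, s, hl1, hl2⟩ := hl
  have h2k : (2 : k) ≠ 0 := hF.two
  have hD0 : Q * D' ≠ 0 := mul_ne_zero hQi.ne_zero (fun h => hD' (h ▸ dvd_zero _))
  set Dv : v.adicCompletion K := algebraMap K (v.adicCompletion K) (algebraMap k[X] K (Q * D'))
    with hDv
  have hDv0 : Dv ≠ 0 := by
    rw [hDv, Ne, map_eq_zero, IsFractionRing.to_map_eq_zero_iff (R := k[X])]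
    exact hD0
  -- the reductions
  have hU : ∀ u : (v.adicCompletion K)[X], ∃ U' : k[X][X], u ≠ 0 → ∃ (c₀ : v.adicCompletion K)
      (i₀ : ℕ), c₀ ≠ 0 ∧ (∀ i, Valued.v (Γ₀ := WithZero (Multiplicative ℤ))
        ((C c₀⁻¹ * u.comp (C Dv * X)).coeff i) ≤ 1) ∧
      (C c₀⁻¹ * u.comp (C Dv * X)).coeff i₀ = 1 ∧
      ∀ i, Valued.v (Γ₀ := WithZero (Multiplicative ℤ)) ((C c₀⁻¹ * u.comp (C Dv * X)).coeff i -
        algebraMap K (v.adicCompletion K) (algebraMap k[X] K (U'.coeff i))) < 1 := by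
    intro u
    by_cases hu : u = 0
    · exact ⟨0, fun h => absurd hu h⟩
    · obtain ⟨c₀, hc0, hle, i₀, hi₀⟩ := exists_U
        (Valued.v (R := v.adicCompletion K) (Γ₀ := WithZero (Multiplicative ℤ))) hDv0 hu
      obtain ⟨U', hU'⟩ := exists_lift _ hle
      exact ⟨U', fun _ => ⟨c₀, i₀, hc0, hle, hi₀, hU'⟩⟩
  choose U' hU' using hU
  set Od : (v.adicCompletion K)[X] → Finset (k[X] ⧸ Ideal.span {Q})[X] := fun u =>
    T.filter fun π => Odd (mu ((U' u).map ρ) π) with hOd
  set st : (v.adicCompletion K)[X] × (v.adicCompletion K)[X] →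
      Finset (k[X] ⧸ Ideal.span {Q})[X] := fun p =>
    if Even (∑ π ∈ Od p.1, π.natDegree) then Od p.1 else T \ Od p.1 with hst
  have hOdT : ∀ u, Od u ⊆ T := fun u => Finset.filter_subset _ _
  have hstT : ∀ p, st p ⊆ T := by
    intro p
    simp only [hst]
    split_ifs
    · exact hOdT _
    · exact Finset.sdiff_subset
  have hstE : ∀ p, Even (∑ π ∈ st p, π.natDegree) := by
    intro p
    simp only [hst]
    split_ifs with he
    · exact he
    · have h7 := Finset.sum_sdiff (hOdT p.1) (f := fun π => π.natDegree)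
      rw [hTdeg] at h7
      rw [Nat.not_even_iff] at he
      rw [Nat.even_iff]
      omega
  set S := tot st l with hS
  have hST : S ⊆ T := tot_sub st l fun p _ => hstT p
  have hSE : Even (∑ π ∈ S, π.natDegree) := tot_even _ st l fun p _ => hstE p
  have hmS : ∀ A ⊆ T, (∏ π ∈ A, π).Monic := fun A hA =>
    monic_prod_of_monic _ _ fun π hπ => (hT π (hA hπ)).1
  have hlift : ∀ A ⊆ T, ∃ a : k[X][X], a.map ρ = ∏ π ∈ A, π ∧
      a.natDegree = ∑ π ∈ A, π.natDegree ∧ a.Monic := by
    intro A hA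
    obtain ⟨a, ha1, ha2, ha3⟩ := lifts_and_natDegree_eq_and_monic (f := ρ)
      ((mem_lifts _).2 (Polynomial.map_surjective ρ hρ _)) (hmS A hA)
    refine ⟨a, ha1, ?_, ha3⟩
    rw [ha2, natDegree_prod_of_monic _ _ fun π hπ => (hT π (hA hπ)).1]
  obtain ⟨a, ha1, ha2, ha3⟩ := hlift S hST
  obtain ⟨b, hb1, hb2, hb3⟩ := hlift (T \ S) Finset.sdiff_subset
  refine ⟨a, b, ha3, hb3, by rw [ha2]; exact hSE, ?_, ?_⟩
  · intro i
    rw [← hρ0, ← coeff_map, Polynomial.map_sub, Polynomial.map_mul, ha1, hb1, mul_comm,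
      Finset.prod_sdiff hST, hprod, sub_self, coeff_zero]
  intro 𝔓 hO
  -- the completion
  have hvQ : 𝔓.valuation L (algebraMap k[X] L Q) = exp (-1 : ℤ) :=
    valQ (K := K) (O := O) h1 hG hF.fam.sq hρ hρ0 hsep hO
  have hvD' : 𝔓.valuation L (algebraMap k[X] L D') = 1 := valO_eq_one hQi hO hD'
  obtain ⟨j, hj1, hj2, hj3⟩ := h6 k K L O Q v 𝔓 hQi hv hO
  obtain ⟨w, c, hc, hw⟩ := h5 O L 𝔓 (val_two (k := k) h2k 𝔓)
  change WV w c at hw
  have hφ : ∀ a : k[X], w (ac (emb L 𝔓 a)) ≤ 1 := by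
    intro a
    rw [wv_le hc hw, vemb]
    exact valO_le_one 𝔓 a
  have hφ0 : ∀ a : k[X], ρ a = 0 → w (ac (emb L 𝔓 a)) < 1 := by
    intro a ha
    rw [hρ0] at ha
    obtain ⟨e, rfl⟩ := ha
    rw [wv_lt hc hw, vemb, map_mul, map_mul, hvQ]
    calc exp (-1 : ℤ) * 𝔓.valuation L (algebraMap k[X] L e) ≤ exp (-1 : ℤ) * 1 :=
          mul_le_mul' le_rfl (valO_le_one 𝔓 e)
      _ < 1 := by
          rw [mul_one, ← exp_zero, exp_lt_exp]
          norm_num
  obtain ⟨θA, lab, hlT, hθA, hθle, hθd, hlab, hcard, hres, hee⟩ :=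
    elevel hc ρ hρ (emb L 𝔓) hφ hφ0 hG.mon hG.deg hsep hT hprod
  set D := emb L 𝔓 (Q * D') with hDd
  set t := algebraMap L (𝔓.adicCompletion L) θ with ht
  have vD : Valued.v (Γ₀ := WithZero (Multiplicative ℤ)) D = exp (-1 : ℤ) := by
    rw [hDd, vemb, map_mul, map_mul, hvQ, hvD', mul_one]
  have hDn : D ≠ 0 := by
    intro h
    rw [h, map_zero] at vD
    exact exp_ne_zero vD.symm
  have hwD : w (ac D) = c := by
    rw [ac, hw D 1 vD, zpow_one]
  have hjD : j Dv = D := by
    rw [hDd, ← emb_comp j hj1]; rfl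
  obtain ⟨i₀, hi₀⟩ : ∃ i, θA i = ac t := by
    have h7 : ((f.map (emb L 𝔓)).map (algebraMap _ (AlgebraicClosure _))).eval (ac t) = 0 := by
      rw [ac, eval_map, eval₂_at_apply, ht, eval_emb, hG.root, map_zero, map_zero]
    rw [hθA, eval_prod, Finset.prod_eq_zero_iff] at h7
    obtain ⟨i, -, hi⟩ := h7
    rw [eval_sub, eval_X, eval_C, sub_eq_zero] at hi
    exact ⟨i, hi.symm⟩
  have hee' : ∀ B : Finset (k[X] ⧸ Ideal.span {Q})[X], ∃ e : 𝔓.adicCompletion L,
      algebraMap _ (AlgebraicClosure _) e = ∏ i ∈ Ix lab B, (θA i₀ - θA i) := by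
    intro B
    obtain ⟨e, he⟩ := hee B t
    refine ⟨e, ?_⟩
    rw [hi₀]
    refine he.trans (Finset.prod_congr ?_ fun _ _ => rfl)
    ext i
    simp [Ix]
  choose ee hee'' using hee'
  have hzz : ∀ i, i ≠ i₀ → θA i₀ - θA i ≠ 0 := by
    intro i hi h0
    have := hθd i₀ i (Ne.symm hi)
    rw [h0, map_zero] at this
    exact zero_ne_one this
  -- the scaled polynomial
  have hFA : ((f.scaleRoots (Q * D')).map (emb L 𝔓)).map
      (algebraMap (𝔓.adicCompletion L) (AlgebraicClosure (𝔓.adicCompletion L))) =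
      ∏ i, (X - C (algebraMap (𝔓.adicCompletion L) (AlgebraicClosure (𝔓.adicCompletion L)) D *
        θA i)) := by
    refine eq_prod (n := 2 * g + 1) ?_ ?_ ?_ ?_
    · exact (((monic_scaleRoots_iff _).2 hG.mon).map _).map _
    · rw [Monic.natDegree_map (((monic_scaleRoots_iff _).2 hG.mon).map _),
        Monic.natDegree_map ((monic_scaleRoots_iff _).2 hG.mon), natDegree_scaleRoots, hG.deg]
    · intro i i' hii
      by_contra hne'
      have hD1 : ac D ≠ 0 := by rw [ac, Ne, map_eq_zero]; exact hDn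
      have := hθd i i' hne'
      rw [mul_left_cancel₀ hD1 hii, sub_self, map_zero] at this
      exact zero_ne_one this
    · intro i
      rw [Polynomial.map_map, eval_map, hDd]
      refine scaleRoots_eval₂_eq_zero ((algebraMap _ (AlgebraicClosure _)).comp (emb L 𝔓)) ?_
      rw [← eval_map, ← Polynomial.map_map, hθA, eval_prod]
      exact Finset.prod_eq_zero (Finset.mem_univ i) (by simp)
  have hFj : (f.scaleRoots (Q * D')).map
      (j.comp ((algebraMap K (v.adicCompletion K)).comp (algebraMap k[X] K))) =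
      (f.scaleRoots (Q * D')).map (emb L 𝔓) := by
    rw [emb_comp j hj1]
  set val : (v.adicCompletion K)[X] × (v.adicCompletion K)[X] → 𝔓.adicCompletion L := fun p =>
    (-1) ^ p.1.natDegree * (p.1.map j).eval (D * t) with hval
  have hcomp : ∀ A ⊆ T, ∀ i, i ∈ (Ix lab A)ᶜ ↔ i ∈ Ix lab (T \ A) := by
    intro A hA i
    rw [Finset.mem_compl, mem_Ix, mem_Ix, Finset.mem_sdiff]
    exact ⟨fun h => ⟨hlT i, h⟩, fun h => h.2⟩
  -- the factors
  have key : ∀ p ∈ l, IsSquare (val p * Wc lab i₀ T ee D (st p)) := by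
    intro p hp
    obtain ⟨h7, h8, h9⟩ := hl1 p hp
    obtain ⟨c₀, m₀, hc0, hle, hm₀, hUU⟩ := hU' p.1 h7.ne_zero
    have h8' : IsCoprime (p.1.map j) ((f.scaleRoots (Q * D')).map (emb L 𝔓)) := by
      have := h8.map (mapRingHom j)
      rw [coe_mapRingHom, Polynomial.map_map, hFj] at this
      exact this
    have h9' : p.1.map j ∣ (p.2.map j) ^ 2 - (f.scaleRoots (Q * D')).map (emb L 𝔓) := by
      have := _root_.map_dvd (mapRingHom j) h9
      rw [map_sub, map_pow, coe_mapRingHom, Polynomial.map_map, hFj] at this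
      exact this
    have hnear : ∀ i, nearA w D (p.1.map j) (θA i) = mu ((U' p.1).map ρ) (lab i) := by
      intro i
      rw [← hjD]
      refine near_eq_mu j w hDv0 h7.ne_zero hc0 ?_ hm₀ (hθle i) ρ (emb L 𝔓) ?_ (hlab i)
      · intro m
        rw [wv_le hc hw]
        exact hj2 _ (hle m)
      · intro m
        rw [wv_lt hc hw, ← emb_comp j hj1, RingHom.comp_apply, ← map_sub]
        exact hj3 _ (hUU m)
    have hA : (∀ i, i ∈ Ix lab (st p) ↔ Odd (nearA w D (p.1.map j) (θA i))) ∨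
        (∀ i, i ∉ Ix lab (st p) ↔ Odd (nearA w D (p.1.map j) (θA i))) := by
      by_cases he : Even (∑ π ∈ Od p.1, π.natDegree)
      · left
        intro i
        have e : st p = Od p.1 := by simp only [hst, if_pos he]
        rw [e, mem_Ix, hnear, hOd]
        simp [hlT i]
      · right
        intro i
        have e : st p = T \ Od p.1 := by simp only [hst, if_neg he]
        rw [e, mem_Ix, hnear, hOd]
        simp [hlT i]
    have hAE : Even (Ix lab (st p)).card := by
      have h10 := hcard (st p) (hstT p)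
      rw [natDegree_prod_of_monic _ _ fun π hπ => (hT π (hstT p hπ)).1] at h10
      have e : (Ix lab (st p)).card = ∑ π ∈ st p, π.natDegree := by
        rw [← h10]
        congr 1
      rw [e]
      exact hstE p
    have h11 := fun e => h3 (𝔓.adicCompletion L) w c hc g D _ θA i₀ t (p.1.map j) (p.2.map j) hF.g1
      hwD hFA hi₀ hθle hθd (h7.map j) h8' h9' (Ix lab (st p)) hA hAE e
    rw [natDegree_map] at h11
    unfold Wc
    split_ifs with hmem
    · have h12 := (h11 (ee (T \ st p))).1 ((mem_Ix lab).2 hmem) (by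
        rw [hee'']
        refine Finset.prod_congr ?_ fun _ _ => rfl
        ext i
        rw [hcomp _ (hstT p)])
      exact h12
    · exact (h11 (ee (st p))).2 (fun h => hmem ((mem_Ix lab).1 h)) (by rw [hee''])
  have hsq := list_sq (algebraMap (𝔓.adicCompletion L) (AlgebraicClosure (𝔓.adicCompletion L)))
    lab (fun i => θA i₀ - θA i) i₀ T hee'' st val hlT hDn hzz l key
  -- the class of `α`
  set Θ : L := algebraMap k[X] L (Q * D') * θ with hΘ
  have hΘ0 : eval₂ (algebraMap k[X] L) Θ (f.scaleRoots (Q * D')) = 0 := scale_root _ hG.root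
  set α' := aeval Θ h with hα'
  set α := algebraMap L (𝔓.adicCompletion L) α' with hα
  have hΘE : algebraMap L (𝔓.adicCompletion L) Θ = D * t := by
    rw [hΘ, map_mul]; rfl
  have hev : α * (l.map val).prod =
      (eval₂ j (algebraMap L (𝔓.adicCompletion L) Θ) s) ^ 2 := by
    obtain ⟨q, hq⟩ := hl2
    have h3 := congrArg (eval₂ j (algebraMap L (𝔓.adicCompletion L) Θ)) hq
    have h4 : eval₂ j (algebraMap L (𝔓.adicCompletion L) Θ)
        ((f.scaleRoots (Q * D')).map
          ((algebraMap K (v.adicCompletion K)).comp (algebraMap k[X] K))) = 0 := by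
      rw [← eval_map, Polynomial.map_map, hFj, eval_emb, hΘ0, map_zero]
    rw [eval₂_sub, eval₂_mul, eval₂_pow, eval₂_mul, h4, zero_mul, sub_eq_zero,
      Pool.Agent.N704.PP.eval_h j hj1] at h3
    rw [← h3, ← coe_eval₂RingHom, map_list_prod, List.map_map]
    congr 3
    funext p
    simp only [hval, Function.comp_apply, map_mul, map_pow, map_neg, map_one, coe_eval₂RingHom,
      eval_map]
    rw [eval₂_mul, eval₂_pow, eval₂_neg, eval₂_one, hΘE]
  have hprod0 : (l.map val).prod ≠ 0 := by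
    intro h7
    rw [List.prod_eq_zero_iff, List.mem_map] at h7
    obtain ⟨p, hp, hp0⟩ := h7
    have h8 : (p.1.map j).eval (D * t) = 0 := by
      rcases mul_eq_zero.1 hp0 with h9 | h9
      · exact absurd h9 (pow_ne_zero _ (neg_ne_zero.2 one_ne_zero))
      · exact h9
    obtain ⟨-, h8', -⟩ := hl1 p hp
    obtain ⟨a', b', hab⟩ : IsCoprime (p.1.map j) ((f.scaleRoots (Q * D')).map (emb L 𝔓)) := by
      have := h8'.map (mapRingHom j)
      rw [coe_mapRingHom, Polynomial.map_map, hFj] at this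
      exact this
    have h9 := congrArg (eval (D * t)) hab
    have h10 : ((f.scaleRoots (Q * D')).map (emb L 𝔓)).eval (D * t) = 0 := by
      rw [← hΘE, eval_emb, hΘ0, map_zero]
    rw [eval_add, eval_mul, eval_mul, h8, h10, mul_zero, mul_zero, add_zero, eval_one] at h9
    exact zero_ne_one h9
  have hαW : IsSquare (α * Wc lab i₀ T ee D S) := by
    refine sq_cancel (y := (l.map val).prod) hprod0 ?_
    obtain ⟨r, hr⟩ := hsq
    refine ⟨r * eval₂ j (algebraMap L (𝔓.adicCompletion L) Θ) s, ?_⟩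
    rw [← hS] at hr
    linear_combination (α * (l.map val).prod) * hr + r ^ 2 * hev
  -- comparison
  have hevA : ∀ p : k[X][X], eval₂ ((algebraMap (𝔓.adicCompletion L)
      (AlgebraicClosure (𝔓.adicCompletion L))).comp (emb L 𝔓)) (θA i₀) p =
      ac (algebraMap L (𝔓.adicCompletion L) (eval₂ (algebraMap k[X] L) θ p)) := by
    intro p
    rw [hi₀, ac, ac, ← hom_eval₂, ← eval_map, ht, eval_emb]
  have hwv : ∀ x : L, w (ac (algebraMap L (𝔓.adicCompletion L) x)) < 1 ↔
      𝔓.valuation L x < 1 := by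
    intro x
    rw [wv_lt hc hw, vx]
  have hee1 : ∀ A : Finset (k[X] ⧸ Ideal.span {Q})[X], lab i₀ ∉ A → w (ac (ee A)) = 1 := by
    intro A hA
    rw [ac, hee'', map_prod]
    refine Finset.prod_eq_one fun i hi => ?_
    rw [mem_Ix] at hi
    exact hθd i₀ i fun h => hA (h ▸ hi)
  have hmemS : lab i₀ ∈ S ↔ 𝔓.valuation L (eval₂ (algebraMap k[X] L) θ a) < 1 := by
    rw [← hwv, ← hevA, hlab, ha1, dvd_prod_iff hT hST (hlT i₀)]
  have hfin : ∀ (A : Finset (k[X] ⧸ Ideal.span {Q})[X]) (a' : k[X][X]) (β : L), A ⊆ T →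
      a'.map ρ = ∏ π ∈ A, π → lab i₀ ∉ A → β ≠ 0 →
      IsSquare (algebraMap L (𝔓.adicCompletion L) β * ee A) →
      Sq1 𝔓 (β * eval₂ (algebraMap k[X] L) θ a') := by
    intro A a' β hA ha' hlA hβ hs
    have h7 := hres A hA a' ha' i₀
    rw [hevA] at h7
    have h8 : w (ac (algebraMap L (𝔓.adicCompletion L) (eval₂ (algebraMap k[X] L) θ a')) -
        ac (ee A)) < 1 := by
      have e : ac (ee A) = ∏ i ∈ Finset.univ.filter (fun i => lab i ∈ A), (θA i₀ - θA i) := by
        refine (hee'' A).trans (Finset.prod_congr ?_ fun _ _ => rfl)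
        ext i
        simp [Ix]
      rw [e]
      exact h7
    have h9 := near_sq hc (hee1 A hlA) h8 hs
    rw [← map_mul] at h9
    refine sq1_of_isSquare ?_ h9
    refine mul_ne_zero hβ ?_
    intro h0
    have h10 := (dvd_prod_iff hT hA (hlT i₀)).not.2 hlA
    rw [← ha', ← hlab, hevA, h0, map_zero, ac, map_zero, map_zero] at h10
    exact h10 zero_lt_one
  constructor
  · intro hlt
    have hm := hmemS.2 hlt
    unfold Wc at hαW
    rw [if_pos hm] at hαW
    have h7 := hfin (T \ S) b (α' * algebraMap k[X] L (-(Q * D'))) Finset.sdiff_subset hb1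
      (by simp [hm]) (mul_ne_zero hne (by
        rw [Ne, map_eq_zero_iff _ (Pool.Agent.N765.PJ.inj_L (L := L) K), neg_eq_zero]
        exact hD0)) (by
        rw [map_mul, ← hα, map_neg, map_neg, mul_assoc]
        exact hαW)
    rw [mul_assoc] at h7
    exact h7
  · intro heq
    have hm : lab i₀ ∉ S := by
      rw [hmemS, heq]
      exact lt_irrefl _
    unfold Wc at hαW
    rw [if_neg hm] at hαW
    exact hfin S a α' hST ha1 hm hne hαW

/-- **LOCW.** -/
theorem T_LOCW (h : P_E3) : P_LOCW :=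
  locw_of Pool.Agent.N769.PJ.int h Pool.Agent.N787.PJ.ext Pool.Agent.N787.PJ.cpl

end Pool.Agent.Run7.h711.TG
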