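import Pool.Agent.Run7.h711.TG.Res
import Pool.Agent.Run7.h784.TG.Stm

/-!
# The number of the roots near a root of `f` is a multiplicity modulo `Q`

By helper711, for piece LOCW of project TG (helper784); after `N769/PJ/Eq.lean`.
-/

set_option autoImplicit false
set_option linter.all false

open Polynomial IsDedekindDomain WithZero
open scoped Classical NNReal

namespace Pool.Agent.Run7.h711.TG

open Pool.Agent.N352.PJ (CV ac)
open Pool.Agent.N769.PJ (NP np_prod tay_le nat_le hder_map)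
open Run7.h784.TG (nearA)

/-- The normalised polynomial `u(D X)`. -/
theorem exists_U {E₀ G : Type} [Field E₀] [LinearOrderedCommGroupWithZero G] (v₀ : Valuation E₀ G)
    {D : E₀} (hD : D ≠ 0) {u : E₀[X]} (hu : u ≠ 0) :
    ∃ c₀ : E₀, c₀ ≠ 0 ∧ (∀ i, v₀ ((C c₀⁻¹ * u.comp (C D * X)).coeff i) ≤ 1) ∧
      ∃ i₀, (C c₀⁻¹ * u.comp (C D * X)).coeff i₀ = 1 := by
  set V : E₀[X] := u.comp (C D * X) with hV
  have hV0 : ∃ i, V.coeff i ≠ 0 := by
    obtain ⟨i, hi⟩ : ∃ i, u.coeff i ≠ 0 := by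
      by_contra hcon
      push Not at hcon
      exact hu (Polynomial.ext hcon)
    refine ⟨i, ?_⟩
    rw [hV, comp_C_mul_X_coeff]
    exact mul_ne_zero hi (pow_ne_zero _ hD)
  obtain ⟨i₁, hi₁⟩ := hV0
  obtain ⟨i₀, hi₀, hmax⟩ := V.support.exists_max_image (fun i => v₀ (V.coeff i))
    ⟨i₁, mem_support_iff.2 hi₁⟩
  have hc0 : V.coeff i₀ ≠ 0 := mem_support_iff.1 hi₀
  have hwc : v₀ (V.coeff i₀) ≠ 0 := (Valuation.ne_zero_iff v₀).2 hc0
  refine ⟨V.coeff i₀, hc0, fun i => ?_, i₀, by rw [coeff_C_mul, inv_mul_cancel₀ hc0]⟩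
  rw [coeff_C_mul, map_mul, map_inv₀]
  by_cases hi : V.coeff i = 0
  · rw [hi, map_zero, mul_zero]
    exact zero_le_one
  · calc (v₀ (V.coeff i₀))⁻¹ * v₀ (V.coeff i)
        ≤ (v₀ (V.coeff i₀))⁻¹ * v₀ (V.coeff i₀) :=
          mul_le_mul_right (hmax i (mem_support_iff.2 hi)) _
      _ = 1 := inv_mul_cancel₀ hwc

theorem nearA_NP {E₀ E : Type} [Field E₀] [Field E] (ι : E₀ →+* E)
    (w : Valuation (AlgebraicClosure E) NNReal) {D : E₀} {u : E₀[X]} (hD : D ≠ 0) (hu : u ≠ 0)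
    {c₀ : E₀} (hc0 : c₀ ≠ 0)
    (hle : ∀ i, w (ac (ι ((C c₀⁻¹ * u.comp (C D * X)).coeff i))) ≤ 1) {i₀ : ℕ}
    (hi₀ : (C c₀⁻¹ * u.comp (C D * X)).coeff i₀ = 1) {τ : AlgebraicClosure E} (ht : w τ ≤ 1) :
    NP w (taylor τ (((C c₀⁻¹ * u.comp (C D * X)).map ι).map
      (algebraMap E (AlgebraicClosure E)))) 1 (nearA w (ι D) (u.map ι) τ) := by
  set V : E₀[X] := u.comp (C D * X) with hV
  set U : E₀[X] := C c₀⁻¹ * V with hU
  have hinj : ∀ x : E₀, x ≠ 0 → ac (ι x) ≠ 0 := by
    intro x hx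
    rw [ac, Ne, map_eq_zero, map_eq_zero]
    exact hx
  set P : (AlgebraicClosure E)[X] := (u.map ι).map (algebraMap E (AlgebraicClosure E)) with hP
  have hP0 : P ≠ 0 := by
    rw [hP, Polynomial.map_ne_zero_iff (algebraMap E (AlgebraicClosure E)).injective,
      Polynomial.map_ne_zero_iff ι.injective]
    exact hu
  have hsp : P.Splits := IsAlgClosed.splits _
  set δ : AlgebraicClosure E := ac (ι D) with hδ
  have hδ0 : δ ≠ 0 := hinj _ hD
  -- the polynomial as a product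
  have hprod : P.comp (C δ * (X + C τ)) =
      (P.roots.map fun x => C δ * (X + C τ) - C x).prod * C P.leadingCoeff := by
    conv_lhs => rw [hsp.eq_prod_roots]
    rw [mul_comp, C_comp, multiset_prod_comp, Multiset.map_map, mul_comm]
    congr 2
    refine Multiset.map_congr rfl fun x _ => ?_
    rw [Function.comp_apply, sub_comp, X_comp, C_comp]
  have htay : taylor τ ((V.map ι).map (algebraMap E (AlgebraicClosure E))) = P.comp (C δ * (X + C τ)) := by
    rw [taylor_apply, hV, map_comp, map_comp, comp_assoc]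
    congr 1
    simp only [Polynomial.map_mul, map_C, map_X, mul_comp, C_comp, X_comp]
    rfl
  obtain ⟨c, hc⟩ := np_prod (w := w) (leadingCoeff_ne_zero.2 hP0) hδ0 τ P.roots
  rw [← hprod, ← htay] at hc
  have hn : (P.roots.countP fun x => w (x - δ * τ) < w δ) = nearA w (ι D) (u.map ι) τ := by
    unfold nearA
    rfl
  rw [hn] at hc
  have hc' := hc.smul (inv_ne_zero (hinj _ hc0))
  have hUV : taylor τ ((U.map ι).map (algebraMap E (AlgebraicClosure E))) =
      C (ac (ι c₀))⁻¹ * taylor τ ((V.map ι).map (algebraMap E (AlgebraicClosure E))) := by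
    rw [hU, Polynomial.map_mul, Polynomial.map_mul, map_C, map_C, taylor_mul, taylor_C]
    congr 2
    rw [ac, map_inv₀, map_inv₀]
  rw [← hUV] at hc'
  set b := w (ac (ι c₀))⁻¹ * c with hb
  have hb1 : b ≤ 1 := by
    rw [← hc'.eq]
    refine tay_le _ ht (fun i => ?_) _
    rw [coeff_map, coeff_map]
    exact hle i
  have hb2 : 1 ≤ b := by
    have h1 : w ((taylor (-τ) (taylor τ ((U.map ι).map (algebraMap E (AlgebraicClosure E))))).coeff i₀) ≤ b :=
      tay_le _ (by rw [Valuation.map_neg]; exact ht) hc'.le _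
    rw [taylor_taylor, neg_add_cancel, taylor_zero, coeff_map, coeff_map, hi₀, map_one, map_one,
      map_one] at h1
    exact h1
  rw [le_antisymm hb1 hb2] at hc'
  exact hc'

/-- The multiplicity of `π` in `U`. -/
noncomputable def mu {κ : Type} [Field κ] (U π : κ[X]) : ℕ := sInf {m | ¬ π ∣ hasseDeriv m U}

theorem near_eq_mu {A κ E₀ E : Type} [CommRing A] [Field κ] [Field E₀] [Field E] (ι : E₀ →+* E)
    (w : Valuation (AlgebraicClosure E) NNReal) {D : E₀} {u : E₀[X]} (hD : D ≠ 0) (hu : u ≠ 0)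
    {c₀ : E₀} (hc0 : c₀ ≠ 0)
    (hle : ∀ i, w (ac (ι ((C c₀⁻¹ * u.comp (C D * X)).coeff i))) ≤ 1) {i₀ : ℕ}
    (h1 : (C c₀⁻¹ * u.comp (C D * X)).coeff i₀ = 1) {τ : AlgebraicClosure E} (ht : w τ ≤ 1)
    (ρ : A →+* κ) (φ : A →+* E) {U' : A[X]}
    (hU' : ∀ i, w (ac (ι ((C c₀⁻¹ * u.comp (C D * X)).coeff i) - φ (U'.coeff i))) < 1)
    {π : κ[X]} (hπ : ∀ p : A[X], w (eval₂ ((algebraMap E (AlgebraicClosure E)).comp φ) τ p) < 1 ↔
      π ∣ p.map ρ) :
    nearA w (ι D) (u.map ι) τ = mu (U'.map ρ) π := by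
  have hnp := nearA_NP ι w hD hu hc0 hle h1 ht
  set U : E₀[X] := C c₀⁻¹ * u.comp (C D * X) with hU
  set n := nearA w (ι D) (u.map ι) τ with hn
  set P := (U.map ι).map (algebraMap E (AlgebraicClosure E)) with hP
  set P' := U'.map ((algebraMap E (AlgebraicClosure E)).comp φ) with hP'
  have hco : ∀ i, w ((P - P').coeff i) < 1 := by
    intro i
    rw [coeff_sub, hP, hP', coeff_map, coeff_map, coeff_map, RingHom.comp_apply, ← map_sub]
    exact hU' i
  have hd : ∀ m, w ((hasseDeriv m P).eval τ - (hasseDeriv m P').eval τ) < 1 := by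
    intro m
    rw [← eval_sub, ← map_sub]
    refine Pool.Agent.N704.PJ.eval_lt w _ (fun i => ?_) ht
    rw [hasseDeriv_coeff, map_mul]
    calc w (((i + m).choose m : ℕ) : AlgebraicClosure E) * w ((P - P').coeff (i + m))
        ≤ 1 * w ((P - P').coeff (i + m)) := mul_le_mul' (nat_le _) le_rfl
      _ < 1 := by rw [one_mul]; exact hco _
  have hiff : ∀ m, w ((taylor τ P).coeff m) < 1 ↔ π ∣ hasseDeriv m (U'.map ρ) := by
    intro m
    rw [taylor_coeff, ← hder_map ρ, ← hπ, ← eval_map, hder_map, ← hP']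
    constructor
    · intro h
      have e : (hasseDeriv m P').eval τ = (hasseDeriv m P).eval τ -
        ((hasseDeriv m P).eval τ - (hasseDeriv m P').eval τ) := by ring
      rw [e]
      exact w.map_sub_lt h (hd m)
    · intro h
      have e : (hasseDeriv m P).eval τ = (hasseDeriv m P').eval τ +
        ((hasseDeriv m P).eval τ - (hasseDeriv m P').eval τ) := by ring
      rw [e]
      exact w.map_add_lt h (hd m)
  symm
  unfold mu
  apply le_antisymm
  · apply Nat.sInf_le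
    intro h
    exact absurd ((hiff n).2 h) (by rw [hnp.eq]; exact lt_irrefl _)
  · apply le_csInf
    · refine ⟨n, fun h => ?_⟩
      exact absurd ((hiff n).2 h) (by rw [hnp.eq]; exact lt_irrefl _)
    · intro m hm
      by_contra hlt
      exact hm ((hiff m).1 (hnp.lt m (not_le.1 hlt)))

end Pool.Agent.Run7.h711.TG
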