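import Pool.Agent.N769.PJ.Eq
import Pool.Agent.N704.PJ.Split

/-!
# Roots of `f` in the algebraic closure of a complete field and the factors of `f` modulo `Q`

By helper711, for piece LOCW of project TG (helper784).
-/

set_option autoImplicit false
set_option linter.all false

open Polynomial IsDedekindDomain WithZero
open scoped Classical NNReal

namespace Pool.Agent.Run7.h711.TG

open Pool.Agent.N352.PJ (CV ac)

/-- An element of the algebraic closure which is separable and fixed lies in the field. -/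
theorem fix_mem {E : Type} [Field E] {x : AlgebraicClosure E} (hs : IsSeparable E x)
    (hx : ∀ σ : AlgebraicClosure E ≃ₐ[E] AlgebraicClosure E, σ x = x) :
    ∃ e : E, ac e = x := by
  by_contra hn
  have h1 : x ∉ (⊥ : Subalgebra E (AlgebraicClosure E)) := by
    rw [Algebra.mem_bot]
    exact hn
  rw [notMem_iff_exists_ne_and_isConjRoot hs (IsAlgClosed.splits _)] at h1
  obtain ⟨y, hy1, hy2⟩ := h1
  obtain ⟨σ, hσ⟩ := isConjRoot_iff_exists_algEquiv.1 hy2
  apply hy1
  have h2 := hx σ.symm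
  rw [← h2, ← hσ, AlgEquiv.symm_apply_apply]

/-- The minimal polynomial. -/
theorem exists_label {κ κ' : Type} [Field κ] [Field κ'] (ι : κ →+* κ') {z : κ'} {F : κ[X]}
    (hF : F.Monic) (h0 : eval₂ ι z F = 0) :
    ∃ π : κ[X], π.Monic ∧ Irreducible π ∧ ∀ p : κ[X], eval₂ ι z p = 0 ↔ π ∣ p := by
  letI := ι.toAlgebra
  have hi : IsIntegral κ z := ⟨F, hF, h0⟩
  exact ⟨minpoly κ z, minpoly.monic hi, minpoly.irreducible hi, fun p => minpoly.dvd_iff.symm⟩

/-- A monic squarefree polynomial is a product of different monic irreducible ones. -/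
theorem fac_prod {κ : Type} [Field κ] {F : κ[X]} (hm : F.Monic) (hs : Squarefree F) :
    ∃ T : Finset κ[X], (∀ π ∈ T, π.Monic ∧ Irreducible π) ∧ ∏ π ∈ T, π = F := by
  have h0 : F ≠ 0 := hm.ne_zero
  have hnd := (UniqueFactorizationMonoid.squarefree_iff_nodup_normalizedFactors h0).1 hs
  refine ⟨(UniqueFactorizationMonoid.normalizedFactors F).toFinset, fun π hπ => ?_, ?_⟩
  · rw [Multiset.mem_toFinset] at hπ
    have h1 := UniqueFactorizationMonoid.irreducible_of_normalized_factor π hπ
    have h2 := UniqueFactorizationMonoid.normalize_normalized_factor π hπ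
    refine ⟨?_, h1⟩
    rw [← h2]
    exact monic_normalize h1.ne_zero
  · have e : ∏ π ∈ (UniqueFactorizationMonoid.normalizedFactors F).toFinset, π =
        (UniqueFactorizationMonoid.normalizedFactors F).prod := by
      rw [Finset.prod_multiset_count]
      refine Finset.prod_congr rfl fun π hπ => ?_
      rw [Multiset.count_eq_one_of_mem hnd (Multiset.mem_toFinset.1 hπ), pow_one]
    rw [e, UniqueFactorizationMonoid.prod_normalizedFactors_eq h0]
    exact hm.normalize_eq_self

/-- Different monic irreducible polynomials. -/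
theorem eq_of_dvd {κ : Type} [Field κ] {π π' : κ[X]} (h1 : π.Monic) (h2 : Irreducible π)
    (h3 : π'.Monic) (h4 : Irreducible π') (h : π ∣ π') : π = π' :=
  eq_of_monic_of_associated h1 h3 (h2.associated_of_dvd h4 h)

theorem dvd_prod_iff {κ : Type} [Field κ] {T : Finset κ[X]} (hT : ∀ π ∈ T, π.Monic ∧ Irreducible π)
    {A : Finset κ[X]} (hA : A ⊆ T) {π : κ[X]} (hπ : π ∈ T) : (π ∣ ∏ a ∈ A, a) ↔ π ∈ A := by
  constructor
  · intro h
    obtain ⟨a, ha, hd⟩ := ((hT π hπ).2.prime.dvd_finset_prod_iff _).1 h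
    rw [eq_of_dvd (hT π hπ).1 (hT π hπ).2 (hT a (hA ha)).1 (hT a (hA ha)).2 hd]
    exact ha
  · intro h
    exact Finset.dvd_prod_of_mem _ h

/-- Roots of a split polynomial. -/
theorem exists_roots {W : Type} [Field W] [IsAlgClosed W] {p : W[X]} (hp : p.Monic) {n : ℕ}
    (hd : p.natDegree = n) : ∃ θ : Fin n → W, p = ∏ i, (X - C (θ i)) := by
  have h1 : p.Splits := IsAlgClosed.splits p
  have h2 : p.roots.card = n := by rw [← h1.natDegree_eq_card_roots, hd]
  have h3 : p.roots.toList.length = n := by rw [Multiset.length_toList, h2]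
  refine ⟨fun i => p.roots.toList.get (i.cast h3.symm), ?_⟩
  have h4 := h1.eq_prod_roots
  rw [hp.leadingCoeff, C_1, one_mul] at h4
  conv_lhs => rw [h4]
  have e : ∏ i : Fin n, (X - C (p.roots.toList.get (i.cast h3.symm))) =
      (p.roots.toList.map fun a => X - C a).prod := by
    subst h3
    rw [← List.prod_ofFn]
    congr 1
    refine List.ext_get (by simp) fun m h5 h6 => ?_
    simp
  rw [e, ← Multiset.prod_coe, ← Multiset.map_coe, Multiset.coe_toList]

/-- Factors and roots. -/
theorem fac_roots {κ κ' : Type} [Field κ] [Field κ'] (ι : κ →+* κ') {n : ℕ} {z : Fin n → κ'}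
    (hz : Function.Injective z) {T : Finset κ[X]} (hT : ∀ π ∈ T, π.Monic ∧ Irreducible π)
    (hprod : (∏ π ∈ T, π).map ι = ∏ i, (X - C (z i))) {lab : Fin n → κ[X]}
    (hlab : ∀ i, lab i ∈ T) (hl : ∀ i (p : κ[X]), eval₂ ι (z i) p = 0 ↔ lab i ∣ p)
    {A : Finset κ[X]} (hA : A ⊆ T) :
    (∏ π ∈ A, π).map ι = ∏ i ∈ Finset.univ.filter fun i => lab i ∈ A, (X - C (z i)) := by
  have key : ∀ B : Finset κ[X], B ⊆ T →
      (∏ i ∈ Finset.univ.filter fun i => lab i ∈ B, (X - C (z i))) ∣ (∏ π ∈ B, π).map ι := by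
    intro B hB
    refine Finset.prod_dvd_of_coprime ((pairwise_coprime_X_sub_C hz).set_pairwise _) fun i hi => ?_
    rw [dvd_iff_isRoot, IsRoot, eval_map, hl, dvd_prod_iff hT hB (hlab i)]
    exact (Finset.mem_filter.1 hi).2
  have hm : ∀ B : Finset κ[X], B ⊆ T → (∏ π ∈ B, π).Monic := fun B hB =>
    monic_prod_of_monic _ _ fun π hπ => (hT π (hB hπ)).1
  have hm' : ∀ S : Finset (Fin n), (∏ i ∈ S, (X - C (z i))).Monic := fun S =>
    monic_prod_of_monic _ _ fun i _ => monic_X_sub_C _
  have h1 := key A hA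
  have h2 := key (T \ A) Finset.sdiff_subset
  have e1 : (∏ i ∈ Finset.univ.filter (fun i => lab i ∈ A), (X - C (z i))) *
      (∏ i ∈ Finset.univ.filter (fun i => lab i ∈ T \ A), (X - C (z i))) =
      ∏ i, (X - C (z i)) := by
    rw [← Finset.prod_filter_mul_prod_filter_not Finset.univ (fun i => lab i ∈ A)]
    congr 1
    refine Finset.prod_congr ?_ fun _ _ => rfl
    ext i
    simp [hlab i]
  have e2 : (∏ π ∈ A, π).map ι * (∏ π ∈ T \ A, π).map ι = ∏ i, (X - C (z i)) := by
    rw [← Polynomial.map_mul, mul_comm, Finset.prod_sdiff hA, hprod]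
  have d1 := natDegree_le_of_dvd h1 ((hm A hA).map ι).ne_zero
  have d2 := natDegree_le_of_dvd h2 ((hm _ Finset.sdiff_subset).map ι).ne_zero
  have d3 := congrArg natDegree (e1.trans e2.symm)
  rw [(hm' _).natDegree_mul (hm' _), ((hm A hA).map ι).natDegree_mul
    ((hm _ Finset.sdiff_subset).map ι)] at d3
  exact (eq_of_monic_of_dvd_of_natDegree_le (hm' _) ((hm A hA).map ι) h1 (by omega))

theorem card_roots {κ κ' : Type} [Field κ] [Field κ'] (ι : κ →+* κ') {n : ℕ} {z : Fin n → κ'}
    (hz : Function.Injective z) {T : Finset κ[X]} (hT : ∀ π ∈ T, π.Monic ∧ Irreducible π)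
    (hprod : (∏ π ∈ T, π).map ι = ∏ i, (X - C (z i))) {lab : Fin n → κ[X]}
    (hlab : ∀ i, lab i ∈ T) (hl : ∀ i (p : κ[X]), eval₂ ι (z i) p = 0 ↔ lab i ∣ p)
    {A : Finset κ[X]} (hA : A ⊆ T) :
    (Finset.univ.filter fun i => lab i ∈ A).card = (∏ π ∈ A, π).natDegree := by
  have h1 := congrArg natDegree (fac_roots ι hz hT hprod hlab hl hA)
  rw [natDegree_map, natDegree_prod_of_monic (Finset.univ.filter fun i => lab i ∈ A) _
    fun i _ => monic_X_sub_C _] at h1
  rw [h1]
  simp

end Pool.Agent.Run7.h711.TG
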